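import Mathlib

/-!
# FAT colourings: definitions and general lemmas
-/

set_option autoImplicit false

namespace Pool.Agent.K9h78.Fat

/-- `e(v, V_i)`: the number of neighbours of `v` in the class of the colour `i` -/
noncomputable def nbrs {V : Type} (G : SimpleGraph V) {k : ℕ} (c : V → Fin k) (v : V) (i : Fin k) :
    ℕ := {w | G.Adj v w ∧ c w = i}.ncard

/-- the degree of `v` -/
noncomputable def deg {V : Type} (G : SimpleGraph V) (v : V) : ℕ := (G.neighborSet v).ncard

/-- `c` is a FAT `k`-colouring of `G` with parameter `α`: all classes are nonempty, `α ∈ [0, 1]`, and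
every vertex has the fraction `α` of its neighbours in each other class and the fraction
`β = 1 - (k - 1) α` of its neighbours in its own class. -/
structure IsFAT {V : Type} (G : SimpleGraph V) (k : ℕ) (α : ℝ) (c : V → Fin k) : Prop where
  surj : Function.Surjective c
  nonneg : 0 ≤ α
  le_one : α ≤ 1
  other : ∀ v i, c v ≠ i → (nbrs G c v i : ℝ) = α * deg G v
  own : ∀ v, (nbrs G c v (c v) : ℝ) = (1 - ((k : ℝ) - 1) * α) * deg G v

/-- The FAT chromatic number of `G` is `k`: this is the largest number of classes of a FAT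
colouring of `G`. -/
def FATChromaticNumber {V : Type} (G : SimpleGraph V) (k : ℕ) : Prop :=
  IsGreatest {m : ℕ | ∃ (α : ℝ) (c : V → Fin m), IsFAT G m α c} k

section
variable {V : Type} [Finite V] {G : SimpleGraph V} {m : ℕ} {α : ℝ} {c : V → Fin m}

/-- Adjacent vertices with the same closed neighbourhood and different colours: their degree
divides all the degrees. -/
theorem twin (h : IsFAT G m α c) {u v : V} (huv : G.Adj u v)
    (ht : ∀ w, w ≠ u → w ≠ v → (G.Adj u w ↔ G.Adj v w)) (hc : c u ≠ c v) (w : V) :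
    deg G u ∣ deg G w := by
  classical
  -- equal degrees
  have hdeg : deg G v = deg G u := by
    unfold deg
    have e1 : G.neighborSet u = insert v {w | w ≠ u ∧ w ≠ v ∧ G.Adj u w} := by
      ext x
      simp only [SimpleGraph.mem_neighborSet, Set.mem_insert_iff, Set.mem_setOf_eq]
      constructor
      · intro hx
        by_cases hxv : x = v
        · exact Or.inl hxv
        · exact Or.inr ⟨hx.ne', hxv, hx⟩
      · rintro (rfl | ⟨-, -, hx⟩)
        · exact huv
        · exact hx
    have e2 : G.neighborSet v = insert u {w | w ≠ u ∧ w ≠ v ∧ G.Adj u w} := by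
      ext x
      simp only [SimpleGraph.mem_neighborSet, Set.mem_insert_iff, Set.mem_setOf_eq]
      constructor
      · intro hx
        by_cases hxu : x = u
        · exact Or.inl hxu
        · exact Or.inr ⟨hxu, hx.ne', (ht x hxu hx.ne').2 hx⟩
      · rintro (rfl | ⟨h1, h2, hx⟩)
        · exact huv.symm
        · exact (ht x h1 h2).1 hx
    rw [e1, e2, Set.ncard_insert_of_notMem, Set.ncard_insert_of_notMem]
    · simp
    · simp
  have hset : {x | G.Adj v x ∧ c x = c u} = insert u {x | G.Adj u x ∧ c x = c u} := by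
    ext x
    simp only [Set.mem_setOf_eq, Set.mem_insert_iff]
    constructor
    · rintro ⟨h1, h2⟩
      by_cases hxu : x = u
      · exact Or.inl hxu
      · exact Or.inr ⟨(ht x hxu h1.ne').2 h1, h2⟩
    · rintro (rfl | ⟨h1, h2⟩)
      · exact ⟨huv.symm, rfl⟩
      · have hxv : x ≠ v := by
          rintro rfl
          exact hc h2.symm
        exact ⟨(ht x h1.ne' hxv).1 h1, h2⟩
  have hE : nbrs G c v (c u) = nbrs G c u (c u) + 1 := by
    unfold nbrs
    rw [hset, Set.ncard_insert_of_notMem]
    simp
  have h1 := h.other v (c u) (Ne.symm hc)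
  have h2 := h.own u
  rw [hdeg] at h1
  have hE' : (nbrs G c v (c u) : ℝ) = nbrs G c u (c u) + 1 := by
    rw [hE]
    push_cast
    ring
  -- `m E = d + 1`
  have h3 : m * nbrs G c v (c u) = deg G u + 1 := by
    have : (m : ℝ) * nbrs G c v (c u) = deg G u + 1 := by
      have h4 : (nbrs G c u (c u) : ℝ) = nbrs G c v (c u) - 1 := by linarith
      rw [h4] at h2
      have h5 : (1 - ((m : ℝ) - 1) * α) * deg G u = deg G u - (m - 1) * (α * deg G u) := by ring
      rw [h5, ← h1] at h2
      linarith
    exact_mod_cast this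
  have hcop : Nat.Coprime (deg G u) (nbrs G c v (c u)) := by
    have : Nat.Coprime (deg G u) (m * nbrs G c v (c u)) := by
      rw [h3]
      exact (Nat.coprime_self_add_right).2 (Nat.coprime_one_right _)
    exact Nat.Coprime.coprime_mul_left_right this
  -- another class for `w`
  obtain ⟨i, hi⟩ : ∃ i, c w ≠ i := by
    by_cases hw : c w = c u
    · exact ⟨c v, fun h' => hc (hw.symm.trans h')⟩
    · exact ⟨c u, hw⟩
  have h4 := h.other w i hi
  have h5 : nbrs G c v (c u) * deg G w = nbrs G c w i * deg G u := by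
    have : (nbrs G c v (c u) : ℝ) * deg G w = nbrs G c w i * deg G u := by
      rw [h1, h4]
      ring
    exact_mod_cast this
  exact hcop.dvd_of_dvd_mul_left (Dvd.intro_left _ h5.symm)

/-- In a connected graph the parameter of a colouring with at least two classes is positive. -/
theorem pos (h : IsFAT G m α c) (hG : G.Connected) (hm : 2 ≤ m) : 0 < α := by
  rcases h.nonneg.lt_or_eq with h1 | h1
  · exact h1
  exfalso
  have hadj : ∀ u v, G.Adj u v → c u = c v := by
    intro u v huv
    by_contra hc
    have h2 := h.other u (c v) hc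
    rw [← h1, zero_mul] at h2
    have h3 : nbrs G c u (c v) = 0 := by exact_mod_cast h2
    unfold nbrs at h3
    rw [Set.ncard_eq_zero] at h3
    have : v ∈ {w | G.Adj u w ∧ c w = c v} := ⟨huv, rfl⟩
    rw [h3] at this
    exact this
  have hall : ∀ u v, c u = c v := by
    intro u v
    obtain ⟨p⟩ := hG.preconnected u v
    induction p with
    | nil => rfl
    | cons h' _ ih => exact (hadj _ _ h').trans ih
  obtain ⟨u, hu⟩ := h.surj ⟨0, by omega⟩
  obtain ⟨v, hv⟩ := h.surj ⟨1, by omega⟩
  have := hall u v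
  rw [hu, hv, Fin.mk.injEq] at this
  omega

/-- every other colour occurs among the neighbours -/
theorem sees (h : IsFAT G m α c) (hG : G.Connected) (hm : 2 ≤ m) {u : V} (hu : 0 < deg G u)
    {i : Fin m} (hi : c u ≠ i) : ∃ w, G.Adj u w ∧ c w = i := by
  have h1 := h.other u i hi
  have h2 := pos h hG hm
  have h3 : 0 < (nbrs G c u i : ℝ) := by
    rw [h1]
    have : (0 : ℝ) < deg G u := by exact_mod_cast hu
    positivity
  have h4 : nbrs G c u i ≠ 0 := by
    intro h5
    rw [h5] at h3
    simp at h3
  unfold nbrs at h4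
  obtain ⟨w, hw⟩ := Set.nonempty_of_ncard_ne_zero h4
  exact ⟨w, hw⟩

end

/-! ### counting -/

theorem ncard_sum {A B : Type} [Finite A] [Finite B] (P : A ⊕ B → Prop) :
    {x | P x}.ncard = {a | P (Sum.inl a)}.ncard + {b | P (Sum.inr b)}.ncard := by
  have h : {x | P x} = Sum.inl '' {a | P (Sum.inl a)} ∪ Sum.inr '' {b | P (Sum.inr b)} := by
    ext x
    rcases x with a | b <;> simp
  rw [h, Set.ncard_union_eq, Set.ncard_image_of_injective _ Sum.inl_injective,
    Set.ncard_image_of_injective _ Sum.inr_injective]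
  rw [Set.disjoint_left]
  rintro x ⟨a, -, rfl⟩ ⟨b, -, h⟩
  exact Sum.inr_ne_inl h

theorem ncard_val {N : ℕ} [NeZero N] (P : ℕ → Prop) [DecidablePred P] :
    {z : ZMod N | P z.val}.ncard = ((Finset.range N).filter P).card := by
  classical
  rw [← Set.ncard_coe_finset, ← Set.ncard_image_of_injective _ (ZMod.val_injective N)]
  congr 1
  ext x
  simp only [Set.mem_image, Set.mem_setOf_eq, Finset.coe_filter, Finset.mem_range]
  constructor
  · rintro ⟨z, hz, rfl⟩
    exact ⟨ZMod.val_lt z, hz⟩
  · rintro ⟨h1, h2⟩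
    refine ⟨(x : ZMod N), ?_, ZMod.val_natCast_of_lt h1⟩
    rw [ZMod.val_natCast_of_lt h1]
    exact h2

/-- the symmetric set `{±1, …, ±h}` -/
def S (N h : ℕ) (z : ZMod N) : Prop := (1 ≤ z.val ∧ z.val ≤ h) ∨ N - h ≤ z.val

theorem S_neg {N h : ℕ} [NeZero N] (hN : 2 * h + 1 ≤ N) (z : ZMod N) : S N h (-z) ↔ S N h z := by
  have key : ∀ z : ZMod N, S N h z → S N h (-z) := by
    intro z hz
    have hlt := ZMod.val_lt z
    have hz0 : z ≠ 0 := by
      rintro rfl
      unfold S at hz
      rw [ZMod.val_zero] at hz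
      omega
    have hv : z.val ≠ 0 := fun h' => hz0 ((ZMod.val_eq_zero z).1 h')
    unfold S at hz ⊢
    haveI : NeZero z := ⟨hz0⟩
    rw [ZMod.val_neg_of_ne_zero]
    omega
  exact ⟨fun h' => by have := key _ h'; rwa [neg_neg] at this, key z⟩

theorem S_zero {N h : ℕ} [NeZero N] (hN : 2 * h + 1 ≤ N) : ¬ S N h 0 := by
  unfold S
  rw [ZMod.val_zero]
  omega

theorem S_card {N h : ℕ} [NeZero N] (hN : 2 * h + 1 ≤ N) (a : ZMod N) :
    {b : ZMod N | S N h (b - a)}.ncard = 2 * h := by
  classical
  have h1 : {b : ZMod N | S N h (b - a)} = (fun z => z + a) '' {z : ZMod N | S N h z} := by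
    ext b
    simp only [Set.mem_setOf_eq, Set.mem_image]
    constructor
    · intro hb
      exact ⟨b - a, hb, by ring⟩
    · rintro ⟨z, hz, rfl⟩
      rwa [add_sub_cancel_right]
  rw [h1, Set.ncard_image_of_injective _ (add_left_injective a)]
  unfold S
  rw [ncard_val (fun n => (1 ≤ n ∧ n ≤ h) ∨ N - h ≤ n)]
  have h2 : ((Finset.range N).filter fun n => (1 ≤ n ∧ n ≤ h) ∨ N - h ≤ n) =
      Finset.Icc 1 h ∪ Finset.Ico (N - h) N := by
    ext n
    simp only [Finset.mem_filter, Finset.mem_range, Finset.mem_union, Finset.mem_Icc,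
      Finset.mem_Ico]
    omega
  rw [h2, Finset.card_union_of_disjoint, Nat.card_Icc, Nat.card_Ico]
  · omega
  · rw [Finset.disjoint_left]
    intro n h3 h4
    rw [Finset.mem_Icc] at h3
    rw [Finset.mem_Ico] at h4
    omega

theorem add_card {N D : ℕ} [NeZero N] (hD : D ≤ N) (a : ZMod N) :
    {b : ZMod N | (a + b).val < D}.ncard = D := by
  classical
  have h1 : {b : ZMod N | (a + b).val < D} = (fun z => z - a) '' {z : ZMod N | z.val < D} := by
    ext b
    simp only [Set.mem_setOf_eq, Set.mem_image]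
    constructor
    · intro hb
      exact ⟨a + b, hb, by ring⟩
    · rintro ⟨z, hz, rfl⟩
      rwa [add_sub_cancel]
  rw [h1, Set.ncard_image_of_injective _ (sub_left_injective)]
  rw [ncard_val (fun n => n < D)]
  have h2 : ((Finset.range N).filter fun n => n < D) = Finset.range D := by
    ext n
    simp only [Finset.mem_filter, Finset.mem_range]
    omega
  rw [h2, Finset.card_range]

theorem ncard_ne {n : ℕ} (a : Fin n) : {b : Fin n | a ≠ b}.ncard = n - 1 := by
  have h : {b : Fin n | a ≠ b} = {a}ᶜ := by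
    ext b
    simp [eq_comm]
  rw [h, Set.ncard_compl, Set.ncard_singleton, Nat.card_eq_fintype_card, Fintype.card_fin]

theorem ncard_true {A : Type} [Finite A] : {_b : A | True}.ncard = Nat.card A := by
  rw [Set.setOf_true, Set.ncard_univ]

theorem ncard_false {A : Type} : {_b : A | False}.ncard = 0 := by
  rw [Set.setOf_false, Set.ncard_empty]

/-- a subset of a product, counted by the first coordinate -/
theorem ncard_prod {k : ℕ} {L : Type} [Finite L] (P : Fin k × L → Prop) :
    {x | P x}.ncard = ∑ j, {l | P (j, l)}.ncard := by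
  classical
  haveI : Fintype L := Fintype.ofFinite L
  have h1 : {x | P x}.ncard = (Finset.univ.filter P).card := by
    rw [← Set.ncard_coe_finset]
    congr 1
    ext x
    simp
  rw [h1, Finset.card_eq_sum_card_fiberwise (f := Prod.fst) (t := Finset.univ)
    (fun x _ => Finset.mem_coe.2 (Finset.mem_univ _))]
  refine Finset.sum_congr rfl fun j _ => ?_
  rw [← Set.ncard_coe_finset, ← Set.ncard_image_of_injective {l | P (j, l)}
    (Prod.mk_right_injective j)]
  congr 1
  ext ⟨a, l⟩
  simp only [Finset.coe_filter, Finset.mem_filter, Finset.mem_univ, true_and, Set.mem_setOf_eq,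
    Set.mem_image, Prod.mk.injEq]
  constructor
  · rintro ⟨h2, rfl⟩
    exact ⟨l, h2, rfl, rfl⟩
  · rintro ⟨l', h2, rfl, rfl⟩
    exact ⟨h2, rfl⟩

end Pool.Agent.K9h78.Fat
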