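import Pool.Agent.K9h78.Fat.Defs

/-!
# FAT colourings: the construction
-/

set_option autoImplicit false

namespace Pool.Agent.K9h78.Fat

/-- the four levels -/
abbrev Lev (a b x y : ℕ) : Type := (Fin a ⊕ Fin b) ⊕ (ZMod x ⊕ ZMod y)

variable {a b x y : ℕ}

/-- adjacency inside a colour class -/
def own (h₁ h₂ : ℕ) : Lev a b x y → Lev a b x y → Prop
  | Sum.inl (Sum.inl u), Sum.inl (Sum.inl v) => u ≠ v
  | Sum.inl (Sum.inr u), Sum.inl (Sum.inr v) => u ≠ v
  | Sum.inl (Sum.inr _), Sum.inr (Sum.inr _) => True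
  | Sum.inr (Sum.inr _), Sum.inl (Sum.inr _) => True
  | Sum.inr (Sum.inl u), Sum.inr (Sum.inl v) => S x h₁ (v - u)
  | Sum.inr (Sum.inr u), Sum.inr (Sum.inr v) => S y h₂ (v - u)
  | _, _ => False

/-- adjacency between two colour classes -/
def cross (D : ℕ) : Lev a b x y → Lev a b x y → Prop
  | Sum.inl (Sum.inl _), Sum.inl (Sum.inr _) => True
  | Sum.inl (Sum.inr _), Sum.inl (Sum.inl _) => True
  | Sum.inl (Sum.inr _), Sum.inr (Sum.inl _) => True
  | Sum.inr (Sum.inl _), Sum.inl (Sum.inr _) => True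
  | Sum.inr (Sum.inr u), Sum.inr (Sum.inr v) => (u + v).val < D
  | _, _ => False

theorem own_symm [NeZero x] [NeZero y] {h₁ h₂ : ℕ} (H₁ : 2 * h₁ + 1 ≤ x) (H₂ : 2 * h₂ + 1 ≤ y)
    (l l' : Lev a b x y) (h : own h₁ h₂ l l') : own h₁ h₂ l' l := by
  rcases l with (u | u) | (u | u) <;> rcases l' with (v | v) | (v | v) <;>
    simp only [own] at h ⊢
  · exact h.symm
  · exact h.symm
  · rw [← S_neg H₁, neg_sub]
    exact h
  · rw [← S_neg H₂, neg_sub]
    exact h

theorem own_irrefl [NeZero x] [NeZero y] {h₁ h₂ : ℕ} (H₁ : 2 * h₁ + 1 ≤ x) (H₂ : 2 * h₂ + 1 ≤ y)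
    (l : Lev a b x y) : ¬ own h₁ h₂ l l := by
  rcases l with (u | u) | (u | u) <;> simp only [own]
  · simp
  · simp
  · rw [sub_self]
    exact S_zero H₁
  · rw [sub_self]
    exact S_zero H₂

theorem cross_symm {D : ℕ} (l l' : Lev a b x y) (h : cross D l l') : cross D l' l := by
  rcases l with (u | u) | (u | u) <;> rcases l' with (v | v) | (v | v) <;>
    simp only [cross] at h ⊢
  rw [add_comm]
  exact h

/-- the graph -/
def Gr (k a b x y h₁ h₂ D : ℕ) [NeZero x] [NeZero y] (H₁ : 2 * h₁ + 1 ≤ x)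
    (H₂ : 2 * h₂ + 1 ≤ y) : SimpleGraph (Fin k × Lev a b x y) where
  Adj v w := (v.1 = w.1 ∧ own h₁ h₂ v.2 w.2) ∨ (v.1 ≠ w.1 ∧ cross D v.2 w.2)
  symm := ⟨fun v w h => by
    rcases h with ⟨h1, h2⟩ | ⟨h1, h2⟩
    · exact Or.inl ⟨h1.symm, own_symm H₁ H₂ _ _ h2⟩
    · exact Or.inr ⟨h1.symm, cross_symm _ _ h2⟩⟩
  loopless := ⟨fun v h => by
    rcases h with ⟨-, h2⟩ | ⟨h1, -⟩
    · exact own_irrefl H₁ H₂ _ h2
    · exact h1 rfl⟩

section
variable {k h₁ h₂ D : ℕ} [NeZero x] [NeZero y] {H₁ : 2 * h₁ + 1 ≤ x} {H₂ : 2 * h₂ + 1 ≤ y}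

theorem nbrs_eq (v : Fin k × Lev a b x y) (j : Fin k) :
    nbrs (Gr k a b x y h₁ h₂ D H₁ H₂) Prod.fst v j =
      if v.1 = j then {l | own h₁ h₂ v.2 l}.ncard else {l | cross D v.2 l}.ncard := by
  unfold nbrs
  rw [ncard_prod (fun w => (Gr k a b x y h₁ h₂ D H₁ H₂).Adj v w ∧ w.1 = j)]
  rw [Finset.sum_eq_single j]
  · split_ifs with h
    · congr 1
      ext l
      simp [Gr, h]
    · congr 1
      ext l
      simp [Gr, h]
  · intro i _ hi
    rw [Set.ncard_eq_zero]
    ext l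
    simp [hi]
  · simp

theorem deg_eq (v : Fin k × Lev a b x y) :
    deg (Gr k a b x y h₁ h₂ D H₁ H₂) v =
      {l | own h₁ h₂ v.2 l}.ncard + (k - 1) * {l | cross D v.2 l}.ncard := by
  unfold deg
  have h : (Gr k a b x y h₁ h₂ D H₁ H₂).neighborSet v =
      {w | (Gr k a b x y h₁ h₂ D H₁ H₂).Adj v w} := rfl
  rw [h, ncard_prod (fun w => (Gr k a b x y h₁ h₂ D H₁ H₂).Adj v w),
    ← Finset.add_sum_erase _ _ (Finset.mem_univ v.1)]
  congr 1
  · congr 1
    ext l
    simp [Gr]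
  · rw [Finset.sum_const_nat (m := {l | cross D v.2 l}.ncard), Finset.card_erase_of_mem
      (Finset.mem_univ _), Finset.card_univ, Fintype.card_fin]
    intro i hi
    congr 1
    ext l
    have : v.1 ≠ i := (Finset.ne_of_mem_erase hi).symm
    simp [Gr, this]

/-- the numbers of neighbours on the four levels -/
theorem own_card (H₁ : 2 * h₁ + 1 ≤ x) (H₂ : 2 * h₂ + 1 ≤ y) (l : Lev a b x y) : {l' | own h₁ h₂ l l'}.ncard =
    match l with
    | Sum.inl (Sum.inl _) => a - 1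
    | Sum.inl (Sum.inr _) => (b - 1) + y
    | Sum.inr (Sum.inl _) => 2 * h₁
    | Sum.inr (Sum.inr _) => b + 2 * h₂ := by
  rw [ncard_sum (own h₁ h₂ l), ncard_sum (fun z => own h₁ h₂ l (Sum.inl z)),
    ncard_sum (fun z => own h₁ h₂ l (Sum.inr z))]
  rcases l with (u | u) | (u | u)
  · simp only [own, ncard_false, ncard_ne]
    omega
  · simp only [own, ncard_false, ncard_ne, ncard_true, Nat.card_zmod]
    omega
  · simp only [own, ncard_false, S_card H₁]
    omega
  · simp only [own, ncard_false, ncard_true, Nat.card_eq_fintype_card, Fintype.card_fin,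
      S_card H₂]
    omega

theorem cross_card (hD : D ≤ y) (l : Lev a b x y) : {l' | cross D l l'}.ncard =
    match l with
    | Sum.inl (Sum.inl _) => b
    | Sum.inl (Sum.inr _) => a + x
    | Sum.inr (Sum.inl _) => b
    | Sum.inr (Sum.inr _) => D := by
  rw [ncard_sum (cross D l), ncard_sum (fun z => cross D l (Sum.inl z)),
    ncard_sum (fun z => cross D l (Sum.inr z))]
  rcases l with (u | u) | (u | u)
  · simp only [cross, ncard_false, ncard_true, Nat.card_eq_fintype_card, Fintype.card_fin]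
    omega
  · simp only [cross, ncard_false, ncard_true, Nat.card_zmod]
    simp only [Nat.card_eq_fintype_card, Fintype.card_fin]
    omega
  · simp only [cross, ncard_false, ncard_true, Nat.card_eq_fintype_card, Fintype.card_fin]
    omega
  · simp only [cross, ncard_false, add_card hD]
    omega

/-- Every edge of the construction leads to a vertex which can be reached from the second level. -/
theorem connected (hk : 2 ≤ k) (ha : 1 ≤ a) (hb : 1 ≤ b) (hD : 1 ≤ D) :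
    (Gr k a b x y h₁ h₂ D H₁ H₂).Connected := by
  set G := Gr k a b x y h₁ h₂ D H₁ H₂ with hG
  let b0 : Fin b := ⟨0, hb⟩
  have hadj : ∀ v w : Fin k × Lev a b x y, G.Adj v w ↔
      (v.1 = w.1 ∧ own h₁ h₂ v.2 w.2) ∨ (v.1 ≠ w.1 ∧ cross D v.2 w.2) := fun v w => Iff.rfl
  -- the second level of one colour
  have s2 : ∀ (i : Fin k) (u v : Fin b),
      G.Reachable (i, Sum.inl (Sum.inr u)) (i, Sum.inl (Sum.inr v)) := by
    intro i u v
    by_cases h : u = v
    · rw [h]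
    · exact SimpleGraph.Adj.reachable ((hadj _ _).2 (Or.inl ⟨rfl, h⟩))
  -- the fourth level of one colour
  have s4 : ∀ (i : Fin k) (u : Fin b) (z : ZMod y),
      G.Reachable (i, Sum.inl (Sum.inr u)) (i, Sum.inr (Sum.inr z)) := fun i u z =>
    SimpleGraph.Adj.reachable ((hadj _ _).2 (Or.inl ⟨rfl, trivial⟩))
  -- two colours
  have s22 : ∀ (i j : Fin k) (u v : Fin b),
      G.Reachable (i, Sum.inl (Sum.inr u)) (j, Sum.inl (Sum.inr v)) := by
    intro i j u v
    by_cases h : i = j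
    · rw [h]
      exact s2 j u v
    · have h1 : G.Adj (i, Sum.inr (Sum.inr 0)) (j, Sum.inr (Sum.inr 0)) := by
        refine (hadj _ _).2 (Or.inr ⟨h, ?_⟩)
        simp only [cross]
        rw [add_zero, ZMod.val_zero]
        omega
      exact ((s4 i u 0).trans h1.reachable).trans (s4 j v 0).symm
  have other : ∀ i : Fin k, ∃ j : Fin k, j ≠ i := by
    intro i
    by_cases h : i = ⟨0, by omega⟩
    · refine ⟨⟨1, by omega⟩, fun h' => ?_⟩
      rw [h, Fin.mk.injEq] at h'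
      omega
    · exact ⟨⟨0, by omega⟩, fun h' => h h'.symm⟩
  have main : ∀ v : Fin k × Lev a b x y, ∃ i : Fin k, G.Reachable (i, Sum.inl (Sum.inr b0)) v := by
    rintro ⟨i, (u | u) | (u | u)⟩
    · obtain ⟨j, hj⟩ := other i
      exact ⟨j, SimpleGraph.Adj.reachable ((hadj _ _).2 (Or.inr ⟨hj, trivial⟩))⟩
    · exact ⟨i, s2 i _ _⟩
    · obtain ⟨j, hj⟩ := other i
      exact ⟨j, SimpleGraph.Adj.reachable ((hadj _ _).2 (Or.inr ⟨hj, trivial⟩))⟩
    · exact ⟨i, s4 i _ _⟩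
  haveI : Nonempty (Fin k × Lev a b x y) := ⟨(⟨0, by omega⟩, Sum.inl (Sum.inr b0))⟩
  refine SimpleGraph.Connected.mk fun v w => ?_
  obtain ⟨i, hi⟩ := main v
  obtain ⟨j, hj⟩ := main w
  exact (hi.symm.trans (s22 i j b0 b0)).trans hj

/-- At most `k` classes. -/
theorem upper (hk : 2 ≤ k) (ha : 2 ≤ a) (hb : 1 ≤ b) (hD : 1 ≤ D) {d₁ d₂ d₃ : ℕ}
    (h1 : ∀ v : Fin k × Lev a b x y, (∃ u, v.2 = Sum.inl (Sum.inl u)) →
      deg (Gr k a b x y h₁ h₂ D H₁ H₂) v = d₁)
    (h2 : ∀ v : Fin k × Lev a b x y, (∃ u, v.2 = Sum.inl (Sum.inr u)) →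
      deg (Gr k a b x y h₁ h₂ D H₁ H₂) v = d₂)
    (hd₃ : d₃ = d₁) (h12 : ¬ d₁ ∣ d₂) (h21 : ¬ d₂ ∣ d₃)
    {m : ℕ} {α : ℝ} {c : Fin k × Lev a b x y → Fin m}
    (h : IsFAT (Gr k a b x y h₁ h₂ D H₁ H₂) m α c) : m ≤ k := by
  subst hd₃
  rcases Nat.lt_or_ge m 2 with hm | hm
  · omega
  have hcon := connected (k := k) (a := a) (b := b) (x := x) (y := y) (h₁ := h₁) (h₂ := h₂)
    (D := D) (H₁ := H₁) (H₂ := H₂) hk (by omega) hb hD
  set G := Gr k a b x y h₁ h₂ D H₁ H₂ with hG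
  have hadj : ∀ v w : Fin k × Lev a b x y, G.Adj v w ↔
      (v.1 = w.1 ∧ own h₁ h₂ v.2 w.2) ∨ (v.1 ≠ w.1 ∧ cross D v.2 w.2) := fun v w => Iff.rfl
  let a0 : Fin a := ⟨0, by omega⟩
  let b0 : Fin b := ⟨0, hb⟩
  let z0 : Fin k := ⟨0, by omega⟩
  -- the first level is monochromatic
  have m1 : ∀ u : Fin a, c (z0, Sum.inl (Sum.inl u)) = c (z0, Sum.inl (Sum.inl a0)) := by
    intro u
    by_contra hc
    have hne : u ≠ a0 := by
      rintro rfl
      exact hc rfl
    refine h12 ?_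
    rw [← h1 (z0, Sum.inl (Sum.inl u)) ⟨u, rfl⟩, ← h2 (z0, Sum.inl (Sum.inr b0)) ⟨b0, rfl⟩]
    refine twin h (show G.Adj (z0, Sum.inl (Sum.inl u)) (z0, Sum.inl (Sum.inl a0)) from
      (hadj _ _).2 (Or.inl ⟨rfl, hne⟩)) ?_ hc _
    rintro ⟨j, (w | w) | (w | w)⟩ n1 n2 <;> simp only [hadj, own, cross]
    by_cases hj : z0 = j
    · subst hj
      have e1 : u ≠ w := by
        rintro rfl
        exact n1 rfl
      have e2 : a0 ≠ w := by
        rintro rfl
        exact n2 rfl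
      simp [e1, e2]
    · simp [hj]
  -- the second level is monochromatic
  have m2 : ∀ (j : Fin k) (u : Fin b),
      c (j, Sum.inl (Sum.inr u)) = c (j, Sum.inl (Sum.inr b0)) := by
    intro j u
    by_contra hc
    have hne : u ≠ b0 := by
      rintro rfl
      exact hc rfl
    refine h21 ?_
    rw [← h2 (j, Sum.inl (Sum.inr u)) ⟨u, rfl⟩, ← h1 (z0, Sum.inl (Sum.inl a0)) ⟨a0, rfl⟩]
    refine twin h (show G.Adj (j, Sum.inl (Sum.inr u)) (j, Sum.inl (Sum.inr b0)) from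
      (hadj _ _).2 (Or.inl ⟨rfl, hne⟩)) ?_ hc _
    rintro ⟨i, (w | w) | (w | w)⟩ n1 n2 <;> simp only [hadj, own, cross]
    by_cases hj : j = i
    · subst hj
      have e1 : u ≠ w := by
        rintro rfl
        exact n1 rfl
      have e2 : b0 ≠ w := by
        rintro rfl
        exact n2 rfl
      simp [e1, e2]
    · simp [hj]
  -- the colours at the vertex `(z0, a0)`
  have hdpos : 0 < deg G (z0, Sum.inl (Sum.inl a0)) := by
    rw [h1 _ ⟨a0, rfl⟩]
    rcases Nat.eq_zero_or_pos d₃ with h0 | h0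
    · exact absurd (h0 ▸ dvd_zero d₂) h21
    · exact h0
  let F : Fin k → Fin m := fun j =>
    if j = z0 then c (z0, Sum.inl (Sum.inl a0)) else c (j, Sum.inl (Sum.inr b0))
  have hF : Function.Surjective F := by
    intro i
    by_cases hi : c (z0, Sum.inl (Sum.inl a0)) = i
    · exact ⟨z0, by simp [F, hi]⟩
    · obtain ⟨⟨j, w⟩, hw1, hw2⟩ := sees h hcon hm hdpos hi
      rw [hadj] at hw1
      rcases w with (w | w) | (w | w)
      · simp only [own, cross, and_false, or_false] at hw1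
        rw [← hw1.1, m1 w] at hw2
        exact absurd hw2 hi
      · simp only [own, cross, and_false, false_or, and_true] at hw1
        refine ⟨j, ?_⟩
        simp only [F]
        rw [if_neg (Ne.symm hw1), ← m2 j w]
        exact hw2
      · simp [own, cross] at hw1
      · simp [own, cross] at hw1
  have := Fintype.card_le_of_surjective F hF
  rwa [Fintype.card_fin, Fintype.card_fin] at this

end

/-- the case `β > 0` -/
theorem positive_beta (k p r : ℕ) (hk : 2 ≤ k) (hp : 1 ≤ p) (hr : 1 ≤ r) :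
    ∃ (V : Type) (_ : Finite V) (G : SimpleGraph V), Nontrivial V ∧ G.Connected ∧
      FATChromaticNumber G k ∧
      ∃ c, IsFAT G k ((p : ℝ) / (((k : ℝ) - 1) * p + r)) c := by
  obtain ⟨T, hT⟩ : ∃ T, T = 2 * (r * p + p * p + p + 2 * r + 1) + 1 := ⟨_, rfl⟩
  have hpT : T ≤ p * T := Nat.le_mul_of_pos_left T hp
  have hrT : T ≤ r * T := Nat.le_mul_of_pos_left T hr
  obtain ⟨x, hx⟩ : ∃ x, x + (2 * r + 1) = p * T := ⟨p * T - (2 * r + 1), by omega⟩
  obtain ⟨y, hy⟩ : ∃ y, y + 2 * p = r * T + 1 := ⟨r * T + 1 - 2 * p, by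
    have : 2 * p ≤ T := by
      rw [hT]
      have : 0 ≤ r * p + p * p := Nat.zero_le _
      omega
    omega⟩
  obtain ⟨s, hs⟩ : ∃ s, r = s + 1 := ⟨r - 1, by omega⟩
  have hsp : s * p + p = r * p := by
    rw [hs]
    ring
  have hx0 : NeZero x := ⟨by omega⟩
  have hy0 : NeZero y := ⟨by omega⟩
  have H₁ : 2 * r + 1 ≤ x := by omega
  have H₂ : 2 * (s * p) + 1 ≤ y := by omega
  have hDy : 2 * (p * p) ≤ y := by omega
  have hpp : 1 ≤ p * p := Nat.one_le_iff_ne_zero.2 (by positivity)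
  -- all numbers of neighbours are in the ratio `r : p`
  have key : ∀ l : Lev (2 * r + 1) (2 * p) x y, ∃ t, {l' | own r (s * p) l l'}.ncard = r * t ∧
      {l' | cross (2 * (p * p)) l l'}.ncard = p * t ∧
      ((∃ u, l = Sum.inl (Sum.inl u)) → t = 2) ∧ ((∃ u, l = Sum.inl (Sum.inr u)) → t = T) := by
    rintro ((u | u) | (u | u))
    · refine ⟨2, ?_, ?_, fun _ => rfl, fun ⟨_, h⟩ => by simp at h⟩
      · rw [own_card H₁ H₂]
        simp only
        omega
      · rw [cross_card hDy]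
        simp only
        omega
    · refine ⟨T, ?_, ?_, fun ⟨_, h⟩ => by simp at h, fun _ => rfl⟩
      · rw [own_card H₁ H₂]
        simp only
        omega
      · rw [cross_card hDy]
        simp only
        omega
    · refine ⟨2, ?_, ?_, fun _ => rfl, fun ⟨_, h⟩ => by simp at h⟩
      · rw [own_card H₁ H₂]
        simp only
        omega
      · rw [cross_card hDy]
        simp only
        omega
    · refine ⟨2 * p, ?_, ?_, fun ⟨_, h⟩ => by simp at h, fun ⟨_, h⟩ => by simp at h⟩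
      · rw [own_card H₁ H₂]
        simp only
        rw [show r * (2 * p) = 2 * (r * p) by ring, ← hsp]
        omega
      · rw [cross_card hDy]
        simp only
        ring
  have hdeg : ∀ v : Fin k × Lev (2 * r + 1) (2 * p) x y, ∀ t,
      {l' | own r (s * p) v.2 l'}.ncard = r * t →
      {l' | cross (2 * (p * p)) v.2 l'}.ncard = p * t →
      deg (Gr k (2 * r + 1) (2 * p) x y r (s * p) (2 * (p * p)) H₁ H₂) v =
        ((k - 1) * p + r) * t := by
    intro v t e1 e2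
    rw [deg_eq, e1, e2]
    ring
  have hq : 0 < (k - 1) * p + r := by omega
  have hFAT : IsFAT (Gr k (2 * r + 1) (2 * p) x y r (s * p) (2 * (p * p)) H₁ H₂) k
      ((p : ℝ) / (((k : ℝ) - 1) * p + r)) Prod.fst := by
    have hk1 : ((k - 1 : ℕ) : ℝ) = (k : ℝ) - 1 := by
      rw [Nat.cast_sub (by omega)]
      simp
    have hq' : (0 : ℝ) < ((k : ℝ) - 1) * p + r := by
      rw [← hk1]
      exact_mod_cast hq
    refine ⟨fun i => ⟨(i, Sum.inl (Sum.inl ⟨0, by omega⟩)), rfl⟩, by positivity, ?_, ?_, ?_⟩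
    · rw [div_le_one hq']
      have h1 : (1 : ℝ) ≤ (k : ℝ) - 1 := by
        rw [← hk1]
        exact_mod_cast (by omega : 1 ≤ k - 1)
      have h2 : (0 : ℝ) ≤ p := Nat.cast_nonneg p
      have h3 : (0 : ℝ) ≤ r := Nat.cast_nonneg r
      nlinarith
    · intro v i hi
      obtain ⟨t, e1, e2, -⟩ := key v.2
      rw [nbrs_eq, if_neg hi, e2, hdeg v t e1 e2]
      push_cast
      rw [hk1, div_mul_eq_mul_div, eq_div_iff hq'.ne']
      ring
    · intro v
      obtain ⟨t, e1, e2, -⟩ := key v.2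
      rw [nbrs_eq, if_pos rfl, e1, hdeg v t e1 e2]
      push_cast
      rw [hk1]
      have h0 := hq'.ne'
      field_simp
      ring
  have hd1 : ∀ v : Fin k × Lev (2 * r + 1) (2 * p) x y, (∃ u, v.2 = Sum.inl (Sum.inl u)) →
      deg (Gr k (2 * r + 1) (2 * p) x y r (s * p) (2 * (p * p)) H₁ H₂) v =
        ((k - 1) * p + r) * 2 := by
    intro v hv
    obtain ⟨t, e1, e2, e3, -⟩ := key v.2
    rw [hdeg v t e1 e2, e3 hv]
  have hd2 : ∀ v : Fin k × Lev (2 * r + 1) (2 * p) x y, (∃ u, v.2 = Sum.inl (Sum.inr u)) →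
      deg (Gr k (2 * r + 1) (2 * p) x y r (s * p) (2 * (p * p)) H₁ H₂) v =
        ((k - 1) * p + r) * T := by
    intro v hv
    obtain ⟨t, e1, e2, -, e3⟩ := key v.2
    rw [hdeg v t e1 e2, e3 hv]
  have hn1 : ¬ ((k - 1) * p + r) * 2 ∣ ((k - 1) * p + r) * T := by
    intro h
    have := (Nat.mul_dvd_mul_iff_left hq).1 h
    omega
  have hn2 : ¬ ((k - 1) * p + r) * T ∣ ((k - 1) * p + r) * 2 := by
    intro h
    have h1 := (Nat.mul_dvd_mul_iff_left hq).1 h
    have h2 := Nat.le_of_dvd (by norm_num) h1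
    omega
  refine ⟨Fin k × Lev (2 * r + 1) (2 * p) x y, inferInstance,
    Gr k (2 * r + 1) (2 * p) x y r (s * p) (2 * (p * p)) H₁ H₂, ?_,
    connected hk (by omega) (by omega) (by omega), ⟨⟨_, _, hFAT⟩, ?_⟩, ⟨_, hFAT⟩⟩
  · refine ⟨(⟨0, by omega⟩, Sum.inl (Sum.inl ⟨0, by omega⟩)),
      (⟨1, by omega⟩, Sum.inl (Sum.inl ⟨0, by omega⟩)), fun h => ?_⟩
    rw [Prod.mk.injEq, Fin.mk.injEq] at h
    omega
  · rintro m ⟨α, c, hc⟩
    exact upper hk (by omega) (by omega) (by omega) hd1 hd2 rfl hn1 hn2 hc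

/-- the case `β = 0`: complete graphs -/
theorem zero_beta (k : ℕ) (hk : 2 ≤ k) :
    ∃ (V : Type) (_ : Finite V) (G : SimpleGraph V), Nontrivial V ∧ G.Connected ∧
      FATChromaticNumber G k ∧ ∃ c, IsFAT G k (1 / ((k : ℝ) - 1)) c := by
  have hk1 : (1 : ℝ) ≤ (k : ℝ) - 1 := by
    have : (2 : ℝ) ≤ k := by exact_mod_cast hk
    linarith
  have hdeg : ∀ v : Fin k, (deg (⊤ : SimpleGraph (Fin k)) v : ℝ) = (k : ℝ) - 1 := by
    intro v
    unfold deg
    have h : (⊤ : SimpleGraph (Fin k)).neighborSet v = {b : Fin k | v ≠ b} := by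
      ext w
      simp [eq_comm]
    rw [h, ncard_ne, Nat.cast_sub (by omega)]
    simp
  have hFAT : IsFAT (⊤ : SimpleGraph (Fin k)) k (1 / ((k : ℝ) - 1)) id := by
    refine ⟨Function.surjective_id, by positivity, ?_, ?_, ?_⟩
    · rw [div_le_one (by linarith)]
      exact hk1
    · intro v i hi
      rw [hdeg]
      unfold nbrs
      have h : {w | (⊤ : SimpleGraph (Fin k)).Adj v w ∧ id w = i} = {i} := by
        ext w
        simp only [SimpleGraph.top_adj, id_eq, Set.mem_setOf_eq, Set.mem_singleton_iff]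
        constructor
        · exact fun h => h.2
        · rintro rfl
          exact ⟨hi, rfl⟩
      rw [h, Set.ncard_singleton]
      field_simp
      simp
    · intro v
      rw [hdeg]
      unfold nbrs
      have h : {w | (⊤ : SimpleGraph (Fin k)).Adj v w ∧ id w = id v} = ∅ := by
        ext w
        simp only [SimpleGraph.top_adj, id_eq, Set.mem_setOf_eq, Set.mem_empty_iff_false, iff_false]
        rintro ⟨h1, h2⟩
        exact h1 h2.symm
      rw [h, Set.ncard_empty]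
      field_simp
      simp
  haveI : Nontrivial (Fin k) := Fin.nontrivial_iff_two_le.2 hk
  haveI : Nonempty (Fin k) := ⟨⟨0, by omega⟩⟩
  refine ⟨Fin k, inferInstance, ⊤, inferInstance, SimpleGraph.connected_top, ⟨⟨_, _, hFAT⟩, ?_⟩,
    ⟨_, hFAT⟩⟩
  rintro m ⟨α, c, hc⟩
  have := Fintype.card_le_of_surjective c hc.surj
  rwa [Fintype.card_fin, Fintype.card_fin] at this

end Pool.Agent.K9h78.Fat
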